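import Pool.Agent.H773.CS.Stm

/-!
CS-SUPP: the LP optimum is attained, and if it is 1 it is supported on satisfying assignments.
-/

open Finset

namespace Pool.Agent.H152.CS

open Pool.Agent.H773.CS

theorem t_supp : S_supp := by
  intro Sg _ _ k F I hI
  have hcl : IsClosed {p : (I.V → Sg → ℝ) × (Fin I.len → (Fin k → Sg) → ℝ) |
      LPFeasible I p.1 p.2} := by
    have hS : {p : (I.V → Sg → ℝ) × (Fin I.len → (Fin k → Sg) → ℝ) | LPFeasible I p.1 p.2} =
        {p | ∀ v s, 0 ≤ p.1 v s} ∩ {p | ∀ i a, 0 ≤ p.2 i a} ∩ {p | ∀ v, ∑ s, p.1 v s = 1} ∩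
        {p | ∀ i, ∑ a, p.2 i a = 1} ∩
        {p | ∀ i j s, (∑ a : Fin k → Sg, if a j = s then p.2 i a else 0) =
          p.1 (I.e i j) s} := by
      ext p
      constructor
      · intro h
        exact ⟨⟨⟨⟨h.x_nonneg, h.z_nonneg⟩, h.x_sum⟩, h.z_sum⟩, h.marg⟩
      · rintro ⟨⟨⟨⟨h1, h2⟩, h3⟩, h4⟩, h5⟩
        exact ⟨h1, h2, h3, h4, h5⟩
    rw [hS]
    refine IsClosed.inter (IsClosed.inter (IsClosed.inter (IsClosed.inter ?_ ?_) ?_) ?_) ?_
    · simp only [Set.setOf_forall]
      exact isClosed_iInter fun v => isClosed_iInter fun s =>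
        isClosed_le continuous_const (by fun_prop)
    · simp only [Set.setOf_forall]
      exact isClosed_iInter fun v => isClosed_iInter fun s =>
        isClosed_le continuous_const (by fun_prop)
    · simp only [Set.setOf_forall]
      exact isClosed_iInter fun v => isClosed_eq (by fun_prop) continuous_const
    · simp only [Set.setOf_forall]
      exact isClosed_iInter fun v => isClosed_eq (by fun_prop) continuous_const
    · simp only [Set.setOf_forall]
      refine isClosed_iInter fun i => isClosed_iInter fun j => isClosed_iInter fun s =>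
        isClosed_eq ?_ (by fun_prop)
      refine continuous_finset_sum _ fun a _ => ?_
      split_ifs
      · fun_prop
      · exact continuous_const
  have hsub : {p : (I.V → Sg → ℝ) × (Fin I.len → (Fin k → Sg) → ℝ) |
      LPFeasible I p.1 p.2} ⊆ Set.Icc 0 1 := by
    intro p hp
    have hp' : LPFeasible I p.1 p.2 := hp
    constructor
    · exact ⟨fun v s => hp'.x_nonneg v s, fun i a => hp'.z_nonneg i a⟩
    · refine ⟨fun v s => ?_, fun i a => ?_⟩
      · have h1 := hp'.x_sum v
        have h2 : p.1 v s ≤ ∑ s, p.1 v s :=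
          Finset.single_le_sum (f := fun s => p.1 v s) (fun s _ => hp'.x_nonneg v s)
            (Finset.mem_univ s)
        rw [h1] at h2
        exact h2
      · have h1 := hp'.z_sum i
        have h2 : p.2 i a ≤ ∑ a, p.2 i a :=
          Finset.single_le_sum (f := fun a => p.2 i a) (fun a _ => hp'.z_nonneg i a)
            (Finset.mem_univ a)
        rw [h1] at h2
        exact h2
  have hcomp : IsCompact {p : (I.V → Sg → ℝ) × (Fin I.len → (Fin k → Sg) → ℝ) |
      LPFeasible I p.1 p.2} := isCompact_Icc.of_isClosed_subset hcl hsub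
  have hne : {p : (I.V → Sg → ℝ) × (Fin I.len → (Fin k → Sg) → ℝ) |
      LPFeasible I p.1 p.2}.Nonempty := by
    by_contra hcon
    rw [Set.not_nonempty_iff_eq_empty] at hcon
    have : {t | ∃ x z, LPFeasible I x z ∧ t = lpObj I z} = ∅ := by
      rw [Set.eq_empty_iff_forall_notMem]
      rintro t ⟨x, z, hxz, -⟩
      have : (x, z) ∈ {p : (I.V → Sg → ℝ) × (Fin I.len → (Fin k → Sg) → ℝ) |
        LPFeasible I p.1 p.2} := hxz
      rw [hcon] at this
      exact this
    unfold lpVal at hI
    rw [this, Real.sSup_empty] at hI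
    linarith
  have hcont : Continuous (fun p : (I.V → Sg → ℝ) × (Fin I.len → (Fin k → Sg) → ℝ) =>
      lpObj I p.2) := by
    unfold lpObj
    refine Continuous.div_const ?_ _
    refine continuous_finset_sum _ fun i _ => continuous_finset_sum _ fun a _ => ?_
    split_ifs
    · fun_prop
    · exact continuous_const
  obtain ⟨⟨x, z⟩, hxz, hmax⟩ := hcomp.exists_isMaxOn hne hcont.continuousOn
  have hxz' : LPFeasible I x z := hxz
  have hge : 1 ≤ lpObj I z := by
    refine hI.trans ?_
    unfold lpVal
    refine csSup_le ⟨lpObj I z, x, z, hxz', rfl⟩ ?_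
    rintro t ⟨x', z', h', rfl⟩
    exact hmax (a := (x', z')) h'
  have hlen : (0 : ℝ) < I.len := by exact_mod_cast I.pos
  have hge2 : (I.len : ℝ) ≤ ∑ i : Fin I.len, ∑ a : Fin k → Sg,
      if I.f i a = true then z i a else 0 := by
    unfold lpObj at hge
    rw [le_div_iff₀ hlen] at hge
    linarith
  have hle : ∀ i ∈ (Finset.univ : Finset (Fin I.len)), (∑ a : Fin k → Sg,
      if I.f i a = true then z i a else 0) ≤ 1 := by
    intro i _
    rw [← hxz'.z_sum i]
    refine Finset.sum_le_sum fun a _ => ?_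
    split_ifs
    · exact le_rfl
    · exact hxz'.z_nonneg i a
  have heq : ∑ i : Fin I.len, (∑ a : Fin k → Sg, if I.f i a = true then z i a else 0) =
      ∑ _i : Fin I.len, (1 : ℝ) := by
    refine le_antisymm (Finset.sum_le_sum hle) ?_
    simpa using hge2
  have heach := (Finset.sum_eq_sum_iff_of_le hle).1 heq
  refine ⟨x, z, hxz', fun i a hza => ?_⟩
  by_contra hf
  have h1 := heach i (Finset.mem_univ i)
  have h2 : ∑ a : Fin k → Sg, (if I.f i a = true then z i a else 0) = ∑ a, z i a := by
    rw [h1, hxz'.z_sum i]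
  have h3 := (Finset.sum_eq_sum_iff_of_le (fun a _ => by
    split_ifs
    · exact le_rfl
    · exact hxz'.z_nonneg i a)).1 h2 a (Finset.mem_univ a)
  rw [if_neg hf] at h3
  exact hza h3.symm

end Pool.Agent.H152.CS
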